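import Pool.Agent.Helper17.IR.Goals

/-!
Project IR (MP_6829b3_nt), packet EI (helper28).
-/

set_option autoImplicit false

namespace Pool.Agent.Helper28.IR

open Pool.Agent.Helper17.Rg Pool.Agent.Helper17.IR

theorem ei_growth (δ x : ℝ) (hδ : 0 < δ) : ∃ K : ℕ, ∀ N : ℕ, K ≤ N → x ≤ (2 : ℝ) ^ (δ * N) := by
  have h1 : 1 < (2 : ℝ) ^ δ := Real.one_lt_rpow (by norm_num) hδ
  have h2 := (tendsto_pow_atTop_atTop_of_one_lt h1).eventually_ge_atTop x
  obtain ⟨K, hK⟩ := Filter.eventually_atTop.1 h2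
  refine ⟨K, fun N hN => ?_⟩
  rw [Real.rpow_mul (by norm_num), Real.rpow_natCast]
  exact hK N hN

/-- **EI** -/
theorem gEI (h : SubQ) : EI := by
  classical
  intro r c H δ hδ
  cases r with
  | zero => exact ⟨0, ∅, by simp, fun N _ a b m => m.elim0⟩
  | succ s =>
    choose N1 F1 hF1 hN1 using fun m : Fin (s + 1) =>
      h s (fun j => - c (m.succAbove j) / c m) (2 * H) (δ / 2) (by linarith)
    choose K hK using fun m : Fin (s + 1) => ei_growth (δ / 2) (1 / |(c m : ℝ)|) (by linarith)
    refine ⟨∑ m, (N1 m + K m), Finset.univ.biUnion (fun m => (F1 m).image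
      (fun u => Fin.insertNth (α := fun _ => ℚ) m u.1 u.2)), ?_, ?_⟩
    · intro v hv
      rw [Finset.mem_biUnion] at hv
      obtain ⟨m, -, hv⟩ := hv
      rw [Finset.mem_image] at hv
      obtain ⟨u, hu, rfl⟩ := hv
      intro h0
      apply hF1 m u hu
      refine Prod.ext ?_ ?_
      · have := congrFun h0 m
        simpa using this
      · funext j
        have := congrFun h0 (m.succAbove j)
        simpa using this
    · intro N hN a b m hab hcm hle
      have hNm : N1 m + K m ≤ N :=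
        le_trans (Finset.single_le_sum (f := fun m => N1 m + K m) (fun _ _ => Nat.zero_le _)
          (Finset.mem_univ m)) hN
      have hcm' : (c m : ℝ) ≠ 0 := by exact_mod_cast hcm
      have hXm : (0 : ℝ) < 2 ^ a m * 3 ^ b m := by positivity
      have hX : ∀ j, (2 : ℝ) ^ (a (m.succAbove j) - a m) * 3 ^ (b (m.succAbove j) - b m)
          = (2 ^ a (m.succAbove j) * 3 ^ b (m.succAbove j)) / (2 ^ a m * 3 ^ b m) := by
        intro j
        rw [zpow_sub₀ (by norm_num), zpow_sub₀ (by norm_num)]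
        field_simp
      have hXQ : ∀ j, (2 : ℚ) ^ (a (m.succAbove j) - a m) * 3 ^ (b (m.succAbove j) - b m)
          = (2 ^ a (m.succAbove j) * 3 ^ b (m.succAbove j)) / (2 ^ a m * 3 ^ b m) := by
        intro j
        rw [zpow_sub₀ (by norm_num), zpow_sub₀ (by norm_num)]
        field_simp
      have hB : ∀ j, |a (m.succAbove j) - a m| ≤ ((2 * H : ℕ) : ℤ) * N ∧
          |b (m.succAbove j) - b m| ≤ ((2 * H : ℕ) : ℤ) * N := by
        intro j
        have h1 := hab (m.succAbove j)
        have h2 := hab m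
        push_cast
        simp only [abs_le] at h1 h2 ⊢
        refine ⟨⟨?_, ?_⟩, ⟨?_, ?_⟩⟩ <;> linarith [h1.1.1, h1.1.2, h1.2.1, h1.2.2, h2.1.1, h2.1.2,
          h2.2.1, h2.2.2]
      have hI : |((1 : ℤ) : ℝ) - ∑ j, ((- c (m.succAbove j) / c m : ℚ) : ℝ) *
          ((2 : ℝ) ^ (a (m.succAbove j) - a m) * 3 ^ (b (m.succAbove j) - b m))|
          ≤ (2 : ℝ) ^ (-(δ / 2) * N) := by
        simp only [hX]
        have h1 : (((1 : ℤ) : ℝ) - ∑ j, ((- c (m.succAbove j) / c m : ℚ) : ℝ) *
            ((2 ^ a (m.succAbove j) * 3 ^ b (m.succAbove j)) / (2 ^ a m * 3 ^ b m)))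
            = (∑ i, (c i : ℝ) * (2 ^ a i * 3 ^ b i)) / (c m * (2 ^ a m * 3 ^ b m)) := by
          rw [Fin.sum_univ_succAbove _ m, add_div, Finset.sum_div]
          rw [div_self (mul_ne_zero hcm' hXm.ne'), sub_eq_add_neg, ← Finset.sum_neg_distrib]
          congr 1
          · norm_num
          · refine Finset.sum_congr rfl fun j _ => ?_
            push_cast
            field_simp
        rw [h1, abs_div, abs_mul, abs_of_pos hXm, div_le_iff₀ (by positivity)]
        refine hle.trans ?_
        have h2 := hK m N (by omega)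
        have h3 : (2 : ℝ) ^ (-δ * N) = 2 ^ (-(δ / 2) * N) / 2 ^ (δ / 2 * N) := by
          rw [← Real.rpow_sub (by norm_num)]
          congr 1
          ring
        have h4 : (0 : ℝ) < |(c m : ℝ)| := abs_pos.2 hcm'
        have h5 : 1 ≤ (2 : ℝ) ^ (δ / 2 * N) * |(c m : ℝ)| := by
          rwa [div_le_iff₀ h4] at h2
        rw [h3, div_mul_eq_mul_div, div_le_iff₀ (by positivity)]
        have h6 : (0 : ℝ) < 2 ^ (-(δ / 2) * N) * (2 ^ a m * 3 ^ b m) := by positivity
        nlinarith [mul_le_mul_of_nonneg_left h5 h6.le]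
      obtain ⟨u, hu, hu0⟩ := hN1 m N (by omega) (fun j => a (m.succAbove j) - a m)
        (fun j => b (m.succAbove j) - b m) 1 hB hI
      refine ⟨Fin.insertNth (α := fun _ => ℚ) m u.1 u.2, ?_, ?_⟩
      · rw [Finset.mem_biUnion]
        exact ⟨m, Finset.mem_univ _, Finset.mem_image_of_mem _ hu⟩
      · rw [Fin.sum_univ_succAbove _ m]
        simp only [Fin.insertNth_apply_same, Fin.insertNth_apply_succAbove]
        simp only [hXQ] at hu0
        have hXm' : (2 ^ a m * 3 ^ b m : ℚ) ≠ 0 := by positivity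
        have h1 : u.1 * (2 ^ a m * 3 ^ b m) + ∑ j, u.2 j *
            (2 ^ a (m.succAbove j) * 3 ^ b (m.succAbove j))
            = (2 ^ a m * 3 ^ b m) * (u.1 * ((1 : ℤ) : ℚ) + ∑ j, u.2 j *
            ((2 ^ a (m.succAbove j) * 3 ^ b (m.succAbove j)) / (2 ^ a m * 3 ^ b m))) := by
          rw [mul_add, Finset.mul_sum]
          congr 1
          · push_cast
            ring
          · refine Finset.sum_congr rfl fun j _ => ?_
            field_simp
        rw [h1, hu0, mul_zero]

end Pool.Agent.Helper28.IR
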